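import Pool.Agent.H51.Cayley.Simplex

open Finset Pointwise

namespace Pool.Agent.H51.Cayley

variable {m N : ℕ} (A : Fin m → Fin N → ZMod 2)

/-- weight of the codeword -/
def wt (u : Fin m → ZMod 2) : ℕ := ∑ w, (cwd A u w).val

/-- height -/
def ht (u : Fin m → ZMod 2) : ℕ := wt A u / 2

lemma zc (x : ZMod 2) : (((x.val : ℕ) : ℤ) : ZMod 2) = x := by
  revert x; decide

lemma cwd_sum (u : Fin m → ZMod 2) : ∑ w, cwd A u w = 0 := by
  simp only [Fintype.sum_option, Fintype.sum_sum_type, cwd]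
  exact CharTwo.add_self_eq_zero _

lemma two_ht (u : Fin m → ZMod 2) : 2 * ht A u = wt A u := by
  have h : ((wt A u : ℕ) : ZMod 2) = 0 := by
    rw [wt, Nat.cast_sum]
    simp only [ZMod.natCast_val, ZMod.cast_id', id_eq]
    exact cwd_sum A u
  rw [ht]
  exact Nat.mul_div_cancel' ((ZMod.natCast_eq_zero_iff _ _).1 h)

/-- integer vector from the doubled coordinates -/
def ofL (L : W m N → ℤ) : Fin (m + N) → ℤ :=
  Fin.append (fun a => L (some (Sum.inl a)))
    (fun b => (L (some (Sum.inr b)) - ∑ a, ((A a b).val : ℤ) * L (some (Sum.inl a))) / 2)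

lemma ofL_LZ (t : ℤ) (y : Fin (m + N) → ℤ) : ofL A (LZ A t y) = y := by
  ext i
  refine Fin.addCases (fun a => ?_) (fun b => ?_) i
  · simp [ofL, LZ]
  · simp [ofL, LZ]

/-- the validity condition -/
def Valid (t : ℤ) (L : W m N → ℤ) : Prop :=
  ∑ w, L w = 2 * t ∧ ∀ w, ((L w : ℤ) : ZMod 2) = cwd A (fun a => ((L (some (Sum.inl a)) : ℤ) : ZMod 2)) w

lemma valid_LZ (t : ℤ) (y : Fin (m + N) → ℤ) : Valid A t (LZ A t y) := by
  refine ⟨LZ_sum A t y, ?_⟩
  have h2 : (2 : ZMod 2) = 0 := by decide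
  rintro (_ | a | b)
  · simp only [LZ, cwd, Int.cast_sub, Int.cast_mul, Int.cast_sum, Int.cast_add, zc]
    have : ((2 : ℤ) : ZMod 2) = 0 := by decide
    rw [this, zero_mul, zero_sub, sub_eq_add_neg, CharTwo.neg_eq, CharTwo.neg_eq]
    congr 1
    refine Finset.sum_congr rfl fun b _ => ?_
    rw [zero_mul, zero_add]
    exact Finset.sum_congr rfl fun a _ => mul_comm _ _
  · simp [LZ, cwd]
  · simp only [LZ, cwd, Int.cast_add, Int.cast_mul, Int.cast_sum, zc]
    have : ((2 : ℤ) : ZMod 2) = 0 := by decide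
    rw [this, zero_mul, zero_add]
    exact Finset.sum_congr rfl fun a _ => mul_comm _ _

lemma LZ_ofL (t : ℤ) (L : W m N → ℤ) (h : Valid A t L) : LZ A t (ofL A L) = L := by
  have hb : ∀ b, 2 * ((L (some (Sum.inr b)) - ∑ a, ((A a b).val : ℤ) * L (some (Sum.inl a))) / 2)
      = L (some (Sum.inr b)) - ∑ a, ((A a b).val : ℤ) * L (some (Sum.inl a)) := by
    intro b
    apply Int.mul_ediv_cancel'
    have := h.2 (some (Sum.inr b))
    have h3 : (((L (some (Sum.inr b)) - ∑ a, ((A a b).val : ℤ) * L (some (Sum.inl a)) : ℤ)) : ZMod 2)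
        = 0 := by
      rw [Int.cast_sub, this]
      simp only [cwd, Int.cast_mul, Int.cast_sum, zc]
      rw [sub_eq_zero]
      exact Finset.sum_congr rfl fun a _ => mul_comm _ _
    exact (ZMod.intCast_zmod_eq_zero_iff_dvd _ 2).1 h3
  have hs := h.1
  simp only [Fintype.sum_option, Fintype.sum_sum_type] at hs
  ext w
  rcases w with _ | a | b
  · simp only [LZ, ofL, Fin.append_left, Fin.append_right, hb]
    simp only [sub_add_cancel]
    linarith
  · simp [LZ, ofL]
  · simp only [LZ, ofL, Fin.append_left, Fin.append_right, hb]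
    ring

/-- the fibre type -/
def T (A : Fin m → Fin N → ZMod 2) (t : ℕ) (u : Fin m → ZMod 2) : Type :=
  {κ : W m N → ℕ // ∑ w, κ w + ht A u = t}

/-- the doubled coordinates of `(u, κ)` -/
def LL (u : Fin m → ZMod 2) (κ : W m N → ℕ) : W m N → ℤ :=
  fun w => 2 * (κ w : ℤ) + ((cwd A u w).val : ℤ)

lemma LL_valid (t : ℕ) (u : Fin m → ZMod 2) (κ : W m N → ℕ) (h : ∑ w, κ w + ht A u = t) :
    Valid A (t : ℤ) (LL A u κ) := by
  have h2 : ((2 : ℤ) : ZMod 2) = 0 := by decide
  have hc : ∀ w, ((LL A u κ w : ℤ) : ZMod 2) = cwd A u w := by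
    intro w
    simp only [LL, Int.cast_add, Int.cast_mul, h2, zero_mul, zero_add, zc]
  refine ⟨?_, ?_⟩
  · have h3 := two_ht A u
    simp only [LL, Finset.sum_add_distrib, ← Finset.mul_sum]
    rw [← h]
    have h4 : (∑ w, ((cwd A u w).val : ℤ)) = ((wt A u : ℕ) : ℤ) := by
      rw [wt]; push_cast; rfl
    rw [h4, ← h3]
    push_cast
    ring
  · intro w
    rw [hc w]
    congr 1
    ext a
    rw [hc (some (Sum.inl a))]
    rfl

/-- the bijection -/
def toPt (t : ℕ) (x : Σ u, T A t u) :
    {y : Fin (m + N) → ℤ // toReal y ∈ (t : ℝ) • simp' A} :=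
  ⟨ofL A (LL A x.1 x.2.1), by
    rw [mem_smul_simp']
    intro w
    have := LR_toReal A (t : ℤ) (ofL A (LL A x.1 x.2.1)) w
    rw [Int.cast_natCast] at this
    rw [this, LZ_ofL A _ _ (LL_valid A t x.1 x.2.1 x.2.2)]
    simp only [LL]
    positivity⟩

lemma toPt_bij (t : ℕ) : Function.Bijective (toPt A t) := by
  constructor
  · rintro ⟨u, κ, h⟩ ⟨u', κ', h'⟩ heq
    have h1 : ofL A (LL A u κ) = ofL A (LL A u' κ') := congrArg Subtype.val heq
    have h2 : LL A u κ = LL A u' κ' := by
      rw [← LZ_ofL A _ _ (LL_valid A t u κ h), ← LZ_ofL A _ _ (LL_valid A t u' κ' h'), h1]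
    have hu : u = u' := by
      ext a
      have h3 := congrFun h2 (some (Sum.inl a))
      simp only [LL, cwd] at h3
      have h4 : (((2 * (κ (some (Sum.inl a)) : ℤ) + ((u a).val : ℤ) : ℤ)) : ZMod 2)
        = ((2 * (κ' (some (Sum.inl a)) : ℤ) + ((u' a).val : ℤ) : ℤ) : ZMod 2) := by rw [h3]
      have h5 : ((2 : ℤ) : ZMod 2) = 0 := by decide
      simpa only [Int.cast_add, Int.cast_mul, h5, zero_mul, zero_add, zc] using h4
    subst hu
    have hk : κ = κ' := by
      ext w
      have h3 := congrFun h2 w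
      simp only [LL] at h3
      omega
    subst hk
    rfl
  · rintro ⟨y, hy⟩
    rw [mem_smul_simp'] at hy
    have hy' : ∀ w, 0 ≤ LZ A (t : ℤ) y w := by
      intro w
      have h1 := hy w
      have h2 := LR_toReal A (t : ℤ) y w
      rw [Int.cast_natCast] at h2
      rw [h2] at h1
      exact_mod_cast h1
    have hv := valid_LZ A (t : ℤ) y
    set L := LZ A (t : ℤ) y with hL
    let u : Fin m → ZMod 2 := fun a => ((L (some (Sum.inl a)) : ℤ) : ZMod 2)
    have hval : ∀ w, (cwd A u w).val = (L w) % 2 := by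
      intro w
      rw [← hv.2 w]
      exact ZMod.val_intCast _
    let κ : W m N → ℕ := fun w => (L w / 2).toNat
    have hκ : ∀ w, 2 * (κ w : ℤ) + ((cwd A u w).val : ℤ) = L w := by
      intro w
      have h1 : ((κ w : ℕ) : ℤ) = L w / 2 := Int.toNat_of_nonneg (by have := hy' w; omega)
      rw [h1, hval w]
      omega
    have hsum : ∑ w, κ w + ht A u = t := by
      have h1 := hv.1
      simp_rw [← hκ] at h1
      rw [Finset.sum_add_distrib, ← Finset.mul_sum] at h1
      have h4 : (∑ w, ((cwd A u w).val : ℤ)) = ((wt A u : ℕ) : ℤ) := by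
        rw [wt]; push_cast; rfl
      rw [h4, ← two_ht] at h1
      push_cast at h1
      have : ((∑ w, κ w : ℕ) : ℤ) + (ht A u : ℤ) = t := by push_cast; linarith
      exact_mod_cast this
    refine ⟨⟨u, κ, hsum⟩, ?_⟩
    apply Subtype.ext
    change ofL A (LL A u κ) = y
    have : LL A u κ = L := funext hκ
    rw [this, hL, ofL_LZ]

lemma card_T (t : ℕ) (u : Fin m → ZMod 2) :
    Nat.card (T A t u) = if ht A u ≤ t then (m + N + (t - ht A u)).choose (m + N) else 0 := by
  split_ifs with h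
  · have e : T A t u ≃ (Finset.finsuppAntidiag (Finset.univ : Finset (W m N)) (t - ht A u)) :=
      { toFun := fun κ => ⟨Finsupp.equivFunOnFinite.symm κ.1, by
          rw [Finset.mem_finsuppAntidiag]
          refine ⟨?_, Finset.subset_univ _⟩
          have := κ.2
          simp only [Finsupp.equivFunOnFinite_symm_apply_apply]
          omega⟩
        invFun := fun f => ⟨f.1, by
          have h1 := (Finset.mem_finsuppAntidiag.1 f.2).1
          have h2 : ∑ w, (f.1 : W m N → ℕ) w = t - ht A u := h1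
          rw [h2]
          omega⟩
        left_inv := fun κ => by
          apply Subtype.ext; ext w; simp
        right_inv := fun f => by
          apply Subtype.ext; ext w; simp }
    rw [Nat.card_congr e, Nat.card_eq_fintype_card, Fintype.card_coe,
      Finset.card_finsuppAntidiag_nat_eq_choose]
    have hc : Fintype.card (W m N) = m + N + 1 := by simp
    rw [Finset.card_univ, hc]
    have : m + N + 1 + (t - ht A u) - 1 = m + N + (t - ht A u) := by omega
    rw [this, Nat.choose_symm_add]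
  · have : IsEmpty (T A t u) := ⟨fun κ => by have := κ.2; omega⟩
    exact Nat.card_of_isEmpty

instance (t : ℕ) (u : Fin m → ZMod 2) : Finite (T A t u) := by
  have hfin : Set.Finite {κ : W m N → ℕ | ∀ w, κ w ∈ Set.Iic t} :=
    Set.Finite.pi' (fun _ => Set.finite_Iic t)
  refine Set.Finite.subset hfin ?_
  intro κ hκ w
  have h1 : ∑ w, κ w + ht A u = t := hκ
  have h2 : κ w ≤ ∑ w, κ w := Finset.single_le_sum (f := κ) (fun _ _ => Nat.zero_le _) (Finset.mem_univ w)
  simp only [Set.mem_Iic]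
  omega

lemma latticeCount_simp' (t : ℕ) :
    latticeCount (simp' A) t
      = ∑ u, if ht A u ≤ t then (m + N + (t - ht A u)).choose (m + N) else 0 := by
  rw [latticeCount, ← Nat.card_congr (Equiv.ofBijective _ (toPt_bij A t)), Nat.card_sigma]
  exact Finset.sum_congr rfl fun u _ => card_T A t u

/-- The h*-polynomial. -/
lemma hStar_simp' : hStar (simp' A) = ((∑ u, Polynomial.X ^ ht A u : Polynomial ℤ) : PowerSeries ℤ) := by
  have h1 : PowerSeries.mk (fun t => (latticeCount (simp' A) t : ℤ))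
      = (∑ u, PowerSeries.X ^ ht A u) * (PowerSeries.mk 1 : PowerSeries ℤ) ^ (m + N + 1) := by
    rw [PowerSeries.mk_one_pow_eq_mk_choose_add]
    ext t
    rw [PowerSeries.coeff_mk, Finset.sum_mul, map_sum, latticeCount_simp']
    push_cast
    refine Finset.sum_congr rfl fun u _ => ?_
    rw [PowerSeries.coeff_X_pow_mul']
    split_ifs
    · rw [PowerSeries.coeff_mk]
    · rfl
  rw [hStar, h1, mul_assoc, ← mul_pow, PowerSeries.mk_one_mul_one_sub_eq_one, one_pow, mul_one]
  rw [← Polynomial.coeToPowerSeries.ringHom_apply, map_sum]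
  simp

end Pool.Agent.H51.Cayley
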