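import Mathlib

open Finset Pointwise

namespace Pool.Agent.H51.Cayley

/-- The real vector with the given integer coordinates. -/
def toReal {d : ℕ} (x : Fin d → ℤ) : Fin d → ℝ := fun i => (x i : ℝ)

/-- A lattice polytope in `ℝ^d`: the convex hull of a nonempty finite set of points of `ℤ^d`. -/
def IsLatticePolytope {d : ℕ} (P : Set (Fin d → ℝ)) : Prop :=
  ∃ V : Finset (Fin d → ℤ), V.Nonempty ∧ P = convexHull ℝ (toReal '' (V : Set (Fin d → ℤ)))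

/-- The number `|tP ∩ ℤ^d|` of lattice points in the dilate `tP`. -/
noncomputable def latticeCount {d : ℕ} (P : Set (Fin d → ℝ)) (t : ℕ) : ℕ :=
  Nat.card {x : Fin d → ℤ // toReal x ∈ (t : ℝ) • P}

/-- The power series `(∑_{t ≥ 0} |tP ∩ ℤ^d| z^t) (1 - z)^{d+1}`, i.e. `h*_P(z)`. -/
noncomputable def hStar {d : ℕ} (P : Set (Fin d → ℝ)) : PowerSeries ℤ :=
  PowerSeries.mk (fun t => (latticeCount P t : ℤ)) * (1 - PowerSeries.X) ^ (d + 1)

/-- `P` has degree `s`: its `h*`-series is a polynomial of degree exactly `s`. -/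
def HasDegree {d : ℕ} (P : Set (Fin d → ℝ)) (s : ℕ) : Prop :=
  ∃ h : Polynomial ℤ, (h : PowerSeries ℤ) = hStar P ∧ h.degree = (s : WithBot ℕ)

/-- The points `e_0 = 0, e_1, …, e_k` of `ℝ^k`. -/
def stdPt {k : ℕ} (j : Fin (k + 1)) : Fin k → ℝ :=
  fun i => if j = i.succ then 1 else 0

/-- The Cayley polytope `P_0 * ⋯ * P_k = conv (⋃ P_j × {e_j})` in `ℝ^m × ℝ^k`. -/
def cayley {m k : ℕ} (Q : Fin (k + 1) → Set (Fin m → ℝ)) :
    Set ((Fin m → ℝ) × (Fin k → ℝ)) :=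
  convexHull ℝ (⋃ j, Q j ×ˢ {stdPt j})

/-- `P ⊆ ℝ^d` is a Cayley polytope of `r` lattice polytopes: `r = k + 1`, `d = m + k`, and some
affine bijection `ℝ^d → ℝ^m × ℝ^k` carrying `ℤ^d` onto `ℤ^m × ℤ^k` carries `P` onto
`P_0 * ⋯ * P_k` for lattice polytopes `P_0, …, P_k` in `ℝ^m`. -/
def IsCayleyPolytope {d : ℕ} (P : Set (Fin d → ℝ)) (r : ℕ) : Prop :=
  ∃ (m k : ℕ), r = k + 1 ∧ d = m + k ∧
    ∃ (Q : Fin (k + 1) → Set (Fin m → ℝ)) (φ : (Fin d → ℝ) ≃ᵃ[ℝ] (Fin m → ℝ) × (Fin k → ℝ)),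
      (∀ j, IsLatticePolytope (Q j)) ∧
      φ '' Set.range toReal = Set.range toReal ×ˢ Set.range toReal ∧
      φ '' P = cayley Q

end Pool.Agent.H51.Cayley
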