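import Pool.Agent.H51.Cayley.Count

open Finset Pointwise

namespace Pool.Agent.H51.Cayley

variable {m N : ℕ} (A : Fin m → Fin N → ZMod 2)

lemma hasDegree_simp' : HasDegree (simp' A) (Finset.univ.sup (ht A)) := by
  refine ⟨∑ u, Polynomial.X ^ ht A u, (hStar_simp' A).symm, le_antisymm ?_ ?_⟩
  · refine (Polynomial.degree_sum_le _ _).trans (Finset.sup_le fun u hu => ?_)
    refine (Polynomial.degree_X_pow_le _).trans ?_
    exact_mod_cast Finset.le_sup (f := ht A) hu
  · apply Polynomial.le_degree_of_ne_zero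
    obtain ⟨u₀, -, hu₀⟩ := Finset.exists_mem_eq_sup (Finset.univ : Finset (Fin m → ZMod 2))
      ⟨0, Finset.mem_univ _⟩ (ht A)
    rw [Polynomial.finsetSum_coeff, hu₀]
    simp only [Polynomial.coeff_X_pow]
    apply ne_of_gt
    refine lt_of_lt_of_le zero_lt_one ?_
    have := Finset.single_le_sum (s := (Finset.univ : Finset (Fin m → ZMod 2)))
      (f := fun u => if ht A u₀ = ht A u then (1 : ℤ) else 0)
      (fun u _ => by split_ifs <;> norm_num) (Finset.mem_univ u₀)
    simpa using this

/-- barycentric coordinates of the standard simplex `conv (stdPt j)` -/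
def bary {k : ℕ} (j : Fin (k + 1)) (x : Fin k → ℝ) : ℝ :=
  Fin.cases (1 - ∑ i, x i) (fun i => x i) j

lemma bary_sum {k : ℕ} (x : Fin k → ℝ) : ∑ j, bary j x = 1 := by
  rw [Fin.sum_univ_succ]
  simp [bary]

lemma bary_stdPt {k : ℕ} (j j' : Fin (k + 1)) : bary j (stdPt j') = if j = j' then 1 else 0 := by
  refine Fin.cases ?_ (fun i => ?_) j
  · refine Fin.cases ?_ (fun i' => ?_) j'
    · simp [bary, stdPt, (Fin.succ_ne_zero _).symm]
    · simp [bary, stdPt, (Fin.succ_ne_zero _).symm]
  · simp [bary, stdPt, eq_comm]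

lemma bary_comb {k : ℕ} (j : Fin (k + 1)) (x y : Fin k → ℝ) (a b : ℝ) (hab : a + b = 1) :
    bary j (a • x + b • y) = a * bary j x + b * bary j y := by
  refine Fin.cases ?_ (fun i => ?_) j
  · simp only [bary, Fin.cases_zero, Pi.add_apply, Pi.smul_apply, smul_eq_mul,
      Finset.sum_add_distrib, ← Finset.mul_sum]
    linear_combination -hab
  · simp [bary]

lemma bary_int {k : ℕ} (j : Fin (k + 1)) (x : Fin k → ℤ) : ∃ z : ℤ, bary j (toReal x) = z := by
  refine Fin.cases ?_ (fun i => ?_) j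
  · exact ⟨1 - ∑ i, x i, by simp [bary, toReal]⟩
  · exact ⟨x i, by simp [bary, toReal]⟩

lemma bary_nonneg {m' k : ℕ} (Q : Fin (k + 1) → Set (Fin m' → ℝ)) :
    cayley Q ⊆ {p | ∀ j, 0 ≤ bary j p.2} := by
  refine convexHull_min ?_ ?_
  · intro p hp j
    obtain ⟨j', hj'⟩ := Set.mem_iUnion.1 hp
    have : p.2 = stdPt j' := hj'.2
    rw [this, bary_stdPt]
    split_ifs <;> norm_num
  · intro p hp q hq a b ha hb hab j
    change 0 ≤ bary j (a • p.2 + b • q.2)
    rw [bary_comb j _ _ a b hab]
    exact add_nonneg (mul_nonneg ha (hp j)) (mul_nonneg hb (hq j))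

/-- The key divisibility: each Cayley part meets each codeword evenly. -/
lemma even_part {m' k : ℕ} (φ : (Fin (m + N) → ℝ) ≃ᵃ[ℝ] (Fin m' → ℝ) × (Fin k → ℝ))
    (hφ : φ '' Set.range toReal = Set.range toReal ×ˢ Set.range toReal)
    (j : Fin (k + 1)) (u : Fin m → ZMod 2) :
    ∃ z : ℤ, ∑ w, ((cwd A u w).val : ℝ) * bary j (φ (toReal (vtx A w))).2 = 2 * z := by
  set y : Fin (m + N) → ℤ := ofL A (LL A u 0) with hy
  have hval : LZ A (ht A u : ℤ) y = LL A u 0 :=
    LZ_ofL A _ _ (LL_valid A (ht A u) u 0 (by simp))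
  have hLR : ∀ w, LR A (ht A u : ℝ) (toReal y) w = ((cwd A u w).val : ℝ) := by
    intro w
    have := LR_toReal A (ht A u : ℤ) y w
    rw [Int.cast_natCast] at this
    rw [this, hval]
    simp [LL]
  have hrec := recon A (ht A u : ℝ) (toReal y)
  simp_rw [hLR] at hrec
  have hsum := LR_sum A (ht A u : ℝ) (toReal y)
  simp_rw [hLR] at hsum
  -- integrality
  have hint : ∀ x : Fin (m + N) → ℤ, ∃ z : Fin k → ℤ, (φ (toReal x)).2 = toReal z := by
    intro x
    have : φ (toReal x) ∈ φ '' Set.range toReal := ⟨_, ⟨x, rfl⟩, rfl⟩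
    rw [hφ] at this
    obtain ⟨z, hz⟩ := this.2
    exact ⟨z, hz.symm⟩
  obtain ⟨z1, hz1⟩ := hint y
  obtain ⟨z0, hz0⟩ := hint 0
  have h0 : toReal (0 : Fin (m + N) → ℤ) = 0 := by ext i; simp [toReal]
  rw [h0] at hz0
  -- the linear part
  have hlin : ∀ x, φ x = φ.linear x + φ 0 := by
    intro x
    have := φ.map_vadd 0 x
    simpa using this
  have key : ∑ w, ((cwd A u w).val : ℝ) • φ (toReal (vtx A w))
      = (2 : ℝ) • φ (toReal y) + (2 * (ht A u : ℝ) - 2) • φ 0 := by
    calc ∑ w, ((cwd A u w).val : ℝ) • φ (toReal (vtx A w))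
        = ∑ w, (φ.linear (((cwd A u w).val : ℝ) • toReal (vtx A w))
            + ((cwd A u w).val : ℝ) • φ 0) := by
          refine Finset.sum_congr rfl fun w _ => ?_
          rw [hlin (toReal (vtx A w)), smul_add, map_smul]
      _ = φ.linear (∑ w, ((cwd A u w).val : ℝ) • toReal (vtx A w))
            + (∑ w, ((cwd A u w).val : ℝ)) • φ 0 := by
          rw [Finset.sum_add_distrib, map_sum, Finset.sum_smul]
      _ = (2 : ℝ) • φ (toReal y) + (2 * (ht A u : ℝ) - 2) • φ 0 := by
          rw [hrec, hsum, map_smul, hlin (toReal y)]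
          module
  have key2 : ∀ i, ∑ w, ((cwd A u w).val : ℝ) * (φ (toReal (vtx A w))).2 i
      = 2 * ((z1 i : ℝ) + ((ht A u : ℝ) - 1) * z0 i) := by
    intro i
    have := congrArg (fun p : (Fin m' → ℝ) × (Fin k → ℝ) => p.2 i) key
    simp only [Prod.snd_sum, Finset.sum_apply, Prod.smul_snd, Pi.smul_apply, smul_eq_mul,
      Prod.snd_add, Pi.add_apply, hz1, hz0, toReal] at this
    rw [this]; ring
  refine Fin.cases ?_ (fun i => ?_) j
  · refine ⟨(ht A u : ℤ) - ∑ i, (z1 i + ((ht A u : ℤ) - 1) * z0 i), ?_⟩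
    simp only [bary, Fin.cases_zero, mul_sub, mul_one, Finset.sum_sub_distrib, hsum]
    have : ∑ w, ((cwd A u w).val : ℝ) * ∑ i, (φ (toReal (vtx A w))).2 i
        = ∑ i, 2 * ((z1 i : ℝ) + ((ht A u : ℝ) - 1) * z0 i) := by
      simp_rw [Finset.mul_sum]
      rw [Finset.sum_comm]
      refine Finset.sum_congr rfl fun i _ => ?_
      rw [key2 i]
    rw [this]
    push_cast
    rw [← Finset.mul_sum]
    ring
  · refine ⟨z1 i + ((ht A u : ℤ) - 1) * z0 i, ?_⟩
    simp only [bary, Fin.cases_succ]
    rw [key2 i]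
    push_cast
    ring

/-- Bound on the number of Cayley parts. -/
lemma parts_bound (D : ℕ)
    (hD : ∀ B : Finset (Fin N), B.Nonempty → (∀ a, ∑ b ∈ B, A a b = 0) → D ≤ B.card)
    (r : ℕ) (h : IsCayleyPolytope (simp' A) r) : D * r ≤ D * (m + 1) + N := by
  classical
  obtain ⟨m', k, rfl, -, Q, φ, hQ, hφ, hP⟩ := h
  set c : W m N → Fin k → ℝ := fun w => (φ (toReal (vtx A w))).2 with hc
  -- vertices map into the Cayley polytope, with integer coordinates
  have hmem : ∀ w j, 0 ≤ bary j (c w) := by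
    intro w j
    have h1 : φ (toReal (vtx A w)) ∈ φ '' simp' A :=
      ⟨_, subset_convexHull ℝ _ ⟨w, rfl⟩, rfl⟩
    rw [hP] at h1
    exact bary_nonneg Q h1 j
  have hint : ∀ w j, ∃ z : ℤ, bary j (c w) = z := by
    intro w j
    have h1 : φ (toReal (vtx A w)) ∈ φ '' Set.range toReal := ⟨_, ⟨vtx A w, rfl⟩, rfl⟩
    rw [hφ] at h1
    obtain ⟨z, hz⟩ := h1.2
    rw [hc]
    simp only
    rw [← hz]
    exact bary_int j z
  have h01 : ∀ w j, bary j (c w) = 0 ∨ bary j (c w) = 1 := by
    intro w j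
    obtain ⟨z, hz⟩ := hint w j
    have h1 : bary j (c w) ≤ 1 := by
      rw [← bary_sum (c w)]
      exact Finset.single_le_sum (fun j _ => hmem w j) (Finset.mem_univ j)
    have h2 := hmem w j
    rw [hz] at h1 h2 ⊢
    have h3 : z ≤ 1 := by exact_mod_cast h1
    have h4 : 0 ≤ z := by exact_mod_cast h2
    have : z = 0 ∨ z = 1 := by omega
    rcases this with h | h <;> simp [h]
  let part : Fin (k + 1) → Finset (W m N) := fun j => Finset.univ.filter fun w => bary j (c w) = 1
  have hne : ∀ j, (part j).Nonempty := by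
    intro j
    by_contra hcon
    rw [Finset.not_nonempty_iff_eq_empty] at hcon
    have hz : ∀ w, bary j (c w) = 0 := by
      intro w
      refine (h01 w j).resolve_right fun h1 => ?_
      have : w ∈ part j := Finset.mem_filter.2 ⟨Finset.mem_univ _, h1⟩
      rw [hcon] at this
      exact absurd this (Finset.notMem_empty _)
    have hsub : simp' A ⊆ {y | bary j (φ y).2 ≤ 0} := by
      refine convexHull_min ?_ ?_
      · rintro _ ⟨w, rfl⟩
        exact (hz w).le
      · intro x hx y hy a b ha hb hab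
        have h1 : φ (a • x + b • y) = a • φ x + b • φ y := by
          exact Convex.combo_affine_apply (f := φ.toAffineMap) hab
        change bary j (φ (a • x + b • y)).2 ≤ 0
        rw [h1]
        change bary j (a • (φ x).2 + b • (φ y).2) ≤ 0
        rw [bary_comb j _ _ a b hab]
        exact add_nonpos (mul_nonpos_of_nonneg_of_nonpos ha hx)
          (mul_nonpos_of_nonneg_of_nonpos hb hy)
    obtain ⟨V, ⟨v, hv⟩, hV⟩ := hQ j
    have hvQ : toReal v ∈ Q j := by
      rw [hV]
      exact subset_convexHull ℝ _ ⟨v, hv, rfl⟩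
    have h2 : (toReal v, stdPt j) ∈ cayley Q :=
      subset_convexHull ℝ _ (Set.mem_iUnion.2 ⟨j, hvQ, rfl⟩)
    rw [← hP] at h2
    obtain ⟨y, hy, hy2⟩ := h2
    have h3 := hsub hy
    change bary j (φ y).2 ≤ 0 at h3
    rw [hy2] at h3
    change bary j (stdPt j) ≤ 0 at h3
    rw [bary_stdPt, if_pos rfl] at h3
    linarith
  have heven : ∀ j u, ∑ w ∈ part j, cwd A u w = 0 := by
    intro j u
    obtain ⟨z, hz⟩ := even_part A φ hφ j u
    have h1 : ∑ w, ((cwd A u w).val : ℝ) * bary j (c w)
        = ((∑ w ∈ part j, (cwd A u w).val : ℕ) : ℝ) := by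
      rw [Nat.cast_sum, Finset.sum_filter]
      refine Finset.sum_congr rfl fun w _ => ?_
      rcases h01 w j with h | h
      · rw [h, mul_zero, if_neg (by norm_num)]
      · rw [h, mul_one, if_pos rfl]
    rw [h1] at hz
    have h2 : ((∑ w ∈ part j, (cwd A u w).val : ℕ) : ℤ) = 2 * z := by exact_mod_cast hz
    have h3 : (((∑ w ∈ part j, (cwd A u w).val : ℕ) : ℤ) : ZMod 2) = 0 := by
      rw [h2, Int.cast_mul]
      have : ((2 : ℤ) : ZMod 2) = 0 := by decide
      rw [this, zero_mul]
    rw [← h3]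
    push_cast
    refine Finset.sum_congr rfl fun w _ => ?_
    exact (zc _).symm
  -- the weight function
  let f : W m N → ℕ := fun w => match w with
    | none => D
    | some (Sum.inl _) => D
    | some (Sum.inr _) => 1
  have hf : ∑ w, f w = D * (m + 1) + N := by
    simp [Fintype.sum_option, Fintype.sum_sum_type, f]
    ring
  have hpart : ∀ j, D ≤ ∑ w ∈ part j, f w := by
    intro j
    by_cases hX : ∃ w ∈ part j, ∀ b, w ≠ some (Sum.inr b)
    · obtain ⟨w, hw, hwb⟩ := hX
      have : f w = D := by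
        rcases w with _ | a | b
        · rfl
        · rfl
        · exact absurd rfl (hwb b)
      rw [← this]
      exact Finset.single_le_sum (fun _ _ => Nat.zero_le _) hw
    · push Not at hX
      let B : Finset (Fin N) := Finset.univ.filter fun b => (some (Sum.inr b) : W m N) ∈ part j
      have hB : part j = B.image fun b => (some (Sum.inr b) : W m N) := by
        ext w
        constructor
        · intro hw
          obtain ⟨b, rfl⟩ := hX w hw
          exact Finset.mem_image.2 ⟨b, Finset.mem_filter.2 ⟨Finset.mem_univ _, hw⟩, rfl⟩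
        · intro hw
          obtain ⟨b, hb, rfl⟩ := Finset.mem_image.1 hw
          exact (Finset.mem_filter.1 hb).2
      have hinj : Function.Injective fun b => (some (Sum.inr b) : W m N) := by
        intro b b' hbb
        simpa using hbb
      have hBne : B.Nonempty := by
        obtain ⟨w, hw⟩ := hne j
        obtain ⟨b, rfl⟩ := hX w hw
        exact ⟨b, Finset.mem_filter.2 ⟨Finset.mem_univ _, hw⟩⟩
      have hz : ∀ a, ∑ b ∈ B, A a b = 0 := by
        intro a
        have h1 := heven j (Pi.single a 1)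
        rw [hB, Finset.sum_image (fun x _ y _ hxy => hinj hxy)] at h1
        rw [← h1]
        refine Finset.sum_congr rfl fun b _ => ?_
        simp [cwd, Pi.single_apply]
      have h2 := hD B hBne hz
      rw [hB, Finset.sum_image (fun x _ y _ hxy => hinj hxy)]
      simpa [f] using h2
  have hdisj : ∀ j ∈ (Finset.univ : Finset (Fin (k + 1))), ∀ j' ∈ Finset.univ, j ≠ j' →
      Disjoint (part j) (part j') := by
    intro j _ j' _ hjj
    rw [Finset.disjoint_left]
    intro w hw hw'
    have h1 := (Finset.mem_filter.1 hw).2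
    have h2 := (Finset.mem_filter.1 hw').2
    have h3 := bary_sum (c w)
    have h4 : bary j (c w) + bary j' (c w) ≤ ∑ j, bary j (c w) := by
      rw [← Finset.sum_pair (f := fun j => bary j (c w)) hjj]
      exact Finset.sum_le_sum_of_subset_of_nonneg (Finset.subset_univ _) (fun i _ _ => hmem w i)
    rw [h1, h2, h3] at h4
    linarith
  calc D * (k + 1) = ∑ _j : Fin (k + 1), D := by simp [mul_comm]
    _ ≤ ∑ j, ∑ w ∈ part j, f w := Finset.sum_le_sum fun j _ => hpart j
    _ = ∑ w ∈ Finset.univ.biUnion part, f w := (Finset.sum_biUnion hdisj).symm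
    _ ≤ ∑ w, f w := Finset.sum_le_sum_of_subset (Finset.subset_univ _)
    _ = D * (m + 1) + N := hf

end Pool.Agent.H51.Cayley
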