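import Pool.Agent.H51.Cayley.Parts

open Finset

namespace Pool.Agent.H51.Cayley

variable {m N : ℕ}

/-- dot product -/
def dot (u a : Fin m → ZMod 2) : ZMod 2 := ∑ i, u i * a i

lemma dot_add (u a a' : Fin m → ZMod 2) : dot u (a + a') = dot u a + dot u a' := by
  simp [dot, mul_add, Finset.sum_add_distrib]

lemma exists_dot_one (u : Fin m → ZMod 2) (hu : u ≠ 0) : ∃ a, dot u a = 1 := by
  obtain ⟨i, hi⟩ := Function.ne_iff.1 hu
  refine ⟨Pi.single i 1, ?_⟩
  have : u i = 1 := by
    have h2 : ∀ x : ZMod 2, x ≠ 0 → x = 1 := by decide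
    exact h2 _ hi
  simp [dot, Pi.single_apply, this]

/-- balancedness of a nonzero functional -/
lemma sum_dot (u : Fin m → ZMod 2) (hu : u ≠ 0) (F : ZMod 2 → ℝ) :
    ∑ a, F (dot u a) = 2 ^ m * ((F 0 + F 1) / 2) := by
  obtain ⟨a0, ha0⟩ := exists_dot_one u hu
  have h1 : ∑ a, F (dot u a) = ∑ a, F (dot u a + 1) := by
    rw [← Equiv.sum_comp (Equiv.addRight a0)]
    refine Finset.sum_congr rfl fun a _ => ?_
    simp only [Equiv.coe_addRight]
    rw [dot_add, ha0]
  have h2 : ∀ x : ZMod 2, F x + F (x + 1) = F 0 + F 1 := by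
    intro x
    have hx : x = 0 ∨ x = 1 := by revert x; decide
    rcases hx with rfl | rfl
    · rw [zero_add]
    · have : (1 : ZMod 2) + 1 = 0 := by decide
      rw [this, add_comm]
  have h3 : ∑ a, F (dot u a) + ∑ a, F (dot u a + 1) = 2 ^ m * (F 0 + F 1) := by
    rw [← Finset.sum_add_distrib]
    simp_rw [h2]
    rw [Finset.sum_const, Finset.card_univ, nsmul_eq_mul]
    simp
  rw [← h1] at h3
  linarith

/-- The exponential moment bound. -/
lemma card_heavy (ε : ℝ) (hε : 0 < ε) (u : Fin m → ZMod 2) (hu : u ≠ 0) :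
    ((Finset.univ.filter fun A : Fin N → (Fin m → ZMod 2) =>
      (1 + ε) * N / 2 < ∑ b, ((dot u (A b)).val : ℝ)).card : ℝ) * Real.exp (ε ^ 2 * N / 2)
      ≤ (2 ^ m) ^ N := by
  classical
  set F : ZMod 2 → ℝ := fun x => Real.exp (ε * (2 * (x.val : ℝ) - 1)) with hF
  have htot : ∑ A : Fin N → (Fin m → ZMod 2), ∏ b, F (dot u (A b))
      = (2 ^ m * Real.cosh ε) ^ N := by
    have := (Finset.sum_prod_piFinset (Finset.univ : Finset (Fin m → ZMod 2))
      (fun (_ : Fin N) a => F (dot u a)))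
    rw [Fintype.piFinset_univ] at this
    rw [this, sum_dot u hu]
    have h0 : F 0 = Real.exp (-ε) := by simp [hF]
    have h1 : F 1 = Real.exp ε := by
      simp only [hF]
      congr 1
      have : ((1 : ZMod 2).val : ℝ) = 1 := by
        have : (1 : ZMod 2).val = 1 := by decide
        rw [this]; norm_num
      rw [this]; ring
    rw [h0, h1, Real.cosh_eq, Finset.prod_const, Finset.card_univ, Fintype.card_fin]
    congr 2
    ring
  set S := Finset.univ.filter fun A : Fin N → (Fin m → ZMod 2) =>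
      (1 + ε) * N / 2 < ∑ b, ((dot u (A b)).val : ℝ) with hS
  have hlow : (S.card : ℝ) * Real.exp (ε ^ 2 * N) ≤ (2 ^ m * Real.cosh ε) ^ N := by
    rw [← htot]
    calc (S.card : ℝ) * Real.exp (ε ^ 2 * N) = ∑ _A ∈ S, Real.exp (ε ^ 2 * N) := by
          rw [Finset.sum_const, nsmul_eq_mul]
      _ ≤ ∑ A ∈ S, ∏ b, F (dot u (A b)) := by
          refine Finset.sum_le_sum fun A hA => ?_
          have hA' := (Finset.mem_filter.1 hA).2
          simp only [hF]
          rw [← Real.exp_sum, Real.exp_le_exp, ← Finset.mul_sum, Finset.sum_sub_distrib,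
            ← Finset.mul_sum]
          simp only [Finset.sum_const, Finset.card_univ, Fintype.card_fin, nsmul_eq_mul, mul_one]
          nlinarith
      _ ≤ ∑ A : Fin N → (Fin m → ZMod 2), ∏ b, F (dot u (A b)) := by
          refine Finset.sum_le_sum_of_subset_of_nonneg (Finset.filter_subset _ _) fun A _ _ => ?_
          exact Finset.prod_nonneg fun b _ => (Real.exp_pos _).le
  have hcosh : (2 ^ m * Real.cosh ε) ^ N ≤ (2 ^ m) ^ N * Real.exp (ε ^ 2 * N / 2) := by
    rw [mul_pow]
    refine mul_le_mul_of_nonneg_left ?_ (by positivity)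
    calc Real.cosh ε ^ N ≤ Real.exp (ε ^ 2 / 2) ^ N :=
          pow_le_pow_left₀ (Real.cosh_pos ε).le (Real.cosh_le_exp_half_sq ε) N
      _ = Real.exp (ε ^ 2 * N / 2) := by
          rw [← Real.exp_nat_mul]; congr 1; ring
  have h3 := hlow.trans hcosh
  have h4 : Real.exp (ε ^ 2 * N) = Real.exp (ε ^ 2 * N / 2) * Real.exp (ε ^ 2 * N / 2) := by
    rw [← Real.exp_add]; congr 1; ring
  rw [h4, ← mul_assoc] at h3
  exact le_of_mul_le_mul_right h3 (Real.exp_pos _)

/-- Few matrices satisfy a given zero-sum relation. -/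
lemma card_zero (B : Finset (Fin N)) (hB : B.Nonempty) :
    (Finset.univ.filter fun A : Fin N → (Fin m → ZMod 2) => ∑ b ∈ B, A b = 0).card * 2 ^ m
      ≤ (2 ^ m) ^ N := by
  classical
  obtain ⟨b0, hb0⟩ := hB
  set S := Finset.univ.filter fun A : Fin N → (Fin m → ZMod 2) => ∑ b ∈ B, A b = 0 with hS
  have h1 : (S ×ˢ (Finset.univ : Finset (Fin m → ZMod 2))).card
      ≤ (Finset.univ : Finset (Fin N → (Fin m → ZMod 2))).card := by
    refine Finset.card_le_card_of_injOn
      (fun p => p.1 + Pi.single b0 p.2) (fun _ _ => Finset.mem_coe.2 (Finset.mem_univ _)) ?_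
    rintro ⟨A, v⟩ hA ⟨A', v'⟩ hA' heq
    have hA1 : ∑ b ∈ B, A b = 0 := (Finset.mem_filter.1 (Finset.mem_product.1 hA).1).2
    have hA2 : ∑ b ∈ B, A' b = 0 := (Finset.mem_filter.1 (Finset.mem_product.1 hA').1).2
    simp only at heq
    have hs : ∀ (A : Fin N → (Fin m → ZMod 2)) v, ∑ b ∈ B, A b = 0 →
        ∑ b ∈ B, (A + Pi.single b0 v : Fin N → (Fin m → ZMod 2)) b = v := by
      intro A v hA
      simp only [Pi.add_apply, Finset.sum_add_distrib, hA, zero_add]
      rw [Finset.sum_pi_single']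
      simp [hb0]
    have hv : v = v' := by
      rw [← hs A v hA1, ← hs A' v' hA2, heq]
    subst hv
    have : A = A' := by simpa using heq
    rw [this]
  rw [Finset.card_product] at h1
  simpa using h1

/-- number of small subsets -/
lemma card_small (N D : ℕ) (hN : 1 ≤ N) :
    (Finset.univ.filter fun B : Finset (Fin N) => B.card < D).card ≤ (N + 1) ^ D := by
  classical
  have h1 : (Finset.univ.filter fun B : Finset (Fin N) => B.card < D)
      = (Finset.range D).biUnion fun i => Finset.powersetCard i Finset.univ := by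
    ext B
    simp [Finset.mem_powersetCard]
  rw [h1]
  refine Finset.card_biUnion_le.trans ?_
  simp only [Finset.card_powersetCard, Finset.card_univ, Fintype.card_fin]
  induction D with
  | zero => simp
  | succ D ih =>
    rw [Finset.sum_range_succ]
    have h2 : N.choose D ≤ N ^ D := Nat.choose_le_pow N D
    have h3 := ih (by
      ext B
      simp [Finset.mem_powersetCard])
    have h4 : N ^ D ≤ (N + 1) ^ D := Nat.pow_le_pow_left (Nat.le_succ N) D
    calc _ ≤ (N + 1) ^ D + (N + 1) ^ D := by omega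
      _ ≤ (N + 1) ^ (D + 1) := by
        rw [pow_succ]; nlinarith [Nat.pos_of_ne_zero (pow_ne_zero D (Nat.succ_ne_zero N))]

/-- Existence of good matrices. -/
lemma exists_good (D : ℕ) (ε : ℝ) (hε : 0 < ε) (hN : 1 ≤ N)
    (h1 : 2 * (N + 1) ^ D ≤ 2 ^ m) (h2 : (2 : ℝ) ^ (m + 1) < Real.exp (ε ^ 2 * N / 2)) :
    ∃ A : Fin N → (Fin m → ZMod 2),
      (∀ u, ∑ b, ((dot u (A b)).val : ℝ) ≤ (1 + ε) * N / 2) ∧
      (∀ B : Finset (Fin N), B.Nonempty → ∑ b ∈ B, A b = 0 → D ≤ B.card) := by
  classical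
  by_contra hcon
  push Not at hcon
  set K : ℝ := (2 ^ m) ^ N with hK
  have hKpos : 0 < K := by positivity
  set S1 : (Fin m → ZMod 2) → Finset (Fin N → (Fin m → ZMod 2)) := fun u =>
    Finset.univ.filter fun A => (1 + ε) * N / 2 < ∑ b, ((dot u (A b)).val : ℝ) with hS1
  set S2 : Finset (Fin N) → Finset (Fin N → (Fin m → ZMod 2)) := fun B =>
    Finset.univ.filter fun A => ∑ b ∈ B, A b = 0 with hS2
  have hcover : (Finset.univ : Finset (Fin N → (Fin m → ZMod 2))) ⊆
      ((Finset.univ.filter fun u : Fin m → ZMod 2 => u ≠ 0).biUnion S1) ∪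
      ((Finset.univ.filter fun B : Finset (Fin N) => B.card < D ∧ B.Nonempty).biUnion S2) := by
    intro A _
    rw [Finset.mem_union]
    by_cases hA : ∀ u, ∑ b, ((dot u (A b)).val : ℝ) ≤ (1 + ε) * N / 2
    · right
      obtain ⟨B, hB, hB0, hBD⟩ := hcon A hA
      exact Finset.mem_biUnion.2 ⟨B, Finset.mem_filter.2 ⟨Finset.mem_univ _, hBD, hB⟩,
        Finset.mem_filter.2 ⟨Finset.mem_univ _, hB0⟩⟩
    · left
      push Not at hA
      obtain ⟨u, hu⟩ := hA
      have hu0 : u ≠ 0 := by
        rintro rfl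
        have : ∑ b, ((dot (0 : Fin m → ZMod 2) (A b)).val : ℝ) = 0 := by simp [dot]
        rw [this] at hu
        have : 0 ≤ (1 + ε) * N / 2 := by positivity
        linarith
      exact Finset.mem_biUnion.2 ⟨u, Finset.mem_filter.2 ⟨Finset.mem_univ _, hu0⟩,
        Finset.mem_filter.2 ⟨Finset.mem_univ _, hu⟩⟩
  have hcard := Finset.card_le_card hcover
  have hKc : (Finset.univ : Finset (Fin N → (Fin m → ZMod 2))).card = (2 ^ m) ^ N := by simp
  rw [hKc] at hcard
  have hc1 := hcard.trans (Finset.card_union_le _ _)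
  have hc2 : (((Finset.univ.filter fun u : Fin m → ZMod 2 => u ≠ 0).biUnion S1).card : ℝ)
      ≤ 2 ^ m * (K / Real.exp (ε ^ 2 * N / 2)) := by
    calc (((Finset.univ.filter fun u : Fin m → ZMod 2 => u ≠ 0).biUnion S1).card : ℝ)
        ≤ ((∑ u ∈ (Finset.univ.filter fun u : Fin m → ZMod 2 => u ≠ 0), (S1 u).card : ℕ) : ℝ) := by
          exact_mod_cast Finset.card_biUnion_le
      _ = ∑ u ∈ (Finset.univ.filter fun u : Fin m → ZMod 2 => u ≠ 0), ((S1 u).card : ℝ) := by
          push_cast; rfl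
      _ ≤ ∑ u ∈ (Finset.univ.filter fun u : Fin m → ZMod 2 => u ≠ 0),
            K / Real.exp (ε ^ 2 * N / 2) := by
          refine Finset.sum_le_sum fun u hu => ?_
          rw [le_div_iff₀ (Real.exp_pos _)]
          exact card_heavy ε hε u (Finset.mem_filter.1 hu).2
      _ ≤ ∑ u : Fin m → ZMod 2, K / Real.exp (ε ^ 2 * N / 2) := by
          refine Finset.sum_le_sum_of_subset_of_nonneg (Finset.filter_subset _ _) fun _ _ _ => ?_
          positivity
      _ = 2 ^ m * (K / Real.exp (ε ^ 2 * N / 2)) := by simp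
  have hc3 : ((((Finset.univ.filter fun B : Finset (Fin N) => B.card < D ∧ B.Nonempty).biUnion
      S2).card : ℕ) : ℝ) ≤ (N + 1) ^ D * (K / 2 ^ m) := by
    calc ((((Finset.univ.filter fun B : Finset (Fin N) => B.card < D ∧ B.Nonempty).biUnion
          S2).card : ℕ) : ℝ)
        ≤ ((∑ B ∈ (Finset.univ.filter fun B : Finset (Fin N) => B.card < D ∧ B.Nonempty),
            (S2 B).card : ℕ) : ℝ) := by
          exact_mod_cast Finset.card_biUnion_le
      _ = ∑ B ∈ (Finset.univ.filter fun B : Finset (Fin N) => B.card < D ∧ B.Nonempty),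
            ((S2 B).card : ℝ) := by
          push_cast; rfl
      _ ≤ ∑ B ∈ (Finset.univ.filter fun B : Finset (Fin N) => B.card < D ∧ B.Nonempty),
            K / 2 ^ m := by
          refine Finset.sum_le_sum fun B hB => ?_
          rw [le_div_iff₀ (by positivity)]
          have := card_zero (m := m) B (Finset.mem_filter.1 hB).2.2
          rw [hK]
          exact_mod_cast this
      _ = ((Finset.univ.filter fun B : Finset (Fin N) => B.card < D ∧ B.Nonempty).card : ℝ)
            * (K / 2 ^ m) := by rw [Finset.sum_const, nsmul_eq_mul]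
      _ ≤ (N + 1) ^ D * (K / 2 ^ m) := by
          refine mul_le_mul_of_nonneg_right ?_ (by positivity)
          have h5 : (Finset.univ.filter fun B : Finset (Fin N) => B.card < D ∧ B.Nonempty).card
              ≤ (Finset.univ.filter fun B : Finset (Fin N) => B.card < D).card := by
            refine Finset.card_le_card fun B hB => ?_
            exact Finset.mem_filter.2 ⟨Finset.mem_univ _, (Finset.mem_filter.1 hB).2.1⟩
          exact_mod_cast h5.trans (card_small N D hN)
  have hfin : K ≤ 2 ^ m * (K / Real.exp (ε ^ 2 * N / 2)) + (N + 1) ^ D * (K / 2 ^ m) := by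
    have h6 : (((2 ^ m) ^ N : ℕ) : ℝ) ≤ _ := Nat.cast_le.2 hc1
    rw [Nat.cast_add] at h6
    have h7 : (((2 ^ m) ^ N : ℕ) : ℝ) = K := by rw [hK]; push_cast; rfl
    rw [h7] at h6
    linarith
  have ha : 2 ^ m * (K / Real.exp (ε ^ 2 * N / 2)) < K / 2 := by
    rw [← mul_div_assoc, div_lt_iff₀ (Real.exp_pos _)]
    rw [pow_succ] at h2
    nlinarith
  have hb : (N + 1 : ℝ) ^ D * (K / 2 ^ m) ≤ K / 2 := by
    rw [← mul_div_assoc, div_le_iff₀ (by positivity)]
    have h8 : 2 * ((N : ℝ) + 1) ^ D ≤ 2 ^ m := by exact_mod_cast h1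
    nlinarith
  linarith

end Pool.Agent.H51.Cayley
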