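import Pool.Agent.H51.Cayley.Defs

open Finset Pointwise

namespace Pool.Agent.H51.Cayley

/-- vertex index set -/
abbrev W (m N : ℕ) := Option (Fin m ⊕ Fin N)

variable {m N : ℕ} (A : Fin m → Fin N → ZMod 2)

/-- the codeword of `u` -/
def cwd (u : Fin m → ZMod 2) : W m N → ZMod 2
  | some (Sum.inl a) => u a
  | some (Sum.inr b) => ∑ a, u a * A a b
  | none => ∑ a, u a + ∑ b, ∑ a, u a * A a b

/-- the vertices -/
def vtx : W m N → Fin (m + N) → ℤ
  | some (Sum.inl a) => Fin.append (Pi.single a 2) (fun b => -((A a b).val : ℤ))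
  | some (Sum.inr b) => Fin.append 0 (Pi.single b 1)
  | none => 0

/-- twice the barycentric coordinates, integer version -/
def LZ (t : ℤ) (y : Fin (m + N) → ℤ) : W m N → ℤ
  | some (Sum.inl a) => y (Fin.castAdd N a)
  | some (Sum.inr b) => 2 * y (Fin.natAdd m b) + ∑ a, ((A a b).val : ℤ) * y (Fin.castAdd N a)
  | none => 2 * t - ∑ a, y (Fin.castAdd N a)
      - ∑ b, (2 * y (Fin.natAdd m b) + ∑ a, ((A a b).val : ℤ) * y (Fin.castAdd N a))

/-- twice the barycentric coordinates, real version -/
def LR (t : ℝ) (y : Fin (m + N) → ℝ) : W m N → ℝ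
  | some (Sum.inl a) => y (Fin.castAdd N a)
  | some (Sum.inr b) => 2 * y (Fin.natAdd m b) + ∑ a, ((A a b).val : ℝ) * y (Fin.castAdd N a)
  | none => 2 * t - ∑ a, y (Fin.castAdd N a)
      - ∑ b, (2 * y (Fin.natAdd m b) + ∑ a, ((A a b).val : ℝ) * y (Fin.castAdd N a))

lemma LR_toReal (t : ℤ) (y : Fin (m + N) → ℤ) (w : W m N) :
    LR A (t : ℝ) (toReal y) w = (LZ A t y w : ℝ) := by
  rcases w with _ | a | b <;> simp [LR, LZ, toReal]

/-- the polytope -/
def simp' : Set (Fin (m + N) → ℝ) := convexHull ℝ (Set.range fun w => toReal (vtx A w))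

lemma LR_smul (c t : ℝ) (y : Fin (m + N) → ℝ) (w : W m N) :
    LR A (c * t) (c • y) w = c * LR A t y w := by
  rcases w with _ | a | b
  · simp only [LR, Pi.smul_apply, smul_eq_mul, mul_sub, Finset.mul_sum, mul_add]
    congr 1
    · congr 1; ring
    · refine Finset.sum_congr rfl fun b _ => ?_
      congr 1
      · ring
      · refine Finset.sum_congr rfl fun a _ => by ring
  · simp [LR]
  · simp only [LR, Pi.smul_apply, smul_eq_mul, Finset.mul_sum, mul_add]
    congr 1
    · ring
    · refine Finset.sum_congr rfl fun a _ => by ring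

lemma LR_add (t t' : ℝ) (y y' : Fin (m + N) → ℝ) (w : W m N) :
    LR A (t + t') (y + y') w = LR A t y w + LR A t' y' w := by
  rcases w with _ | a | b
  · simp only [LR, Pi.add_apply, mul_add, Finset.sum_add_distrib]
    ring
  · simp [LR]
  · simp only [LR, Pi.add_apply, mul_add, Finset.sum_add_distrib]
    ring

lemma LR_sum (t : ℝ) (y : Fin (m + N) → ℝ) : ∑ w, LR A t y w = 2 * t := by
  simp [Fintype.sum_option, Fintype.sum_sum_type, LR]

lemma LZ_sum (t : ℤ) (y : Fin (m + N) → ℤ) : ∑ w, LZ A t y w = 2 * t := by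
  simp [Fintype.sum_option, Fintype.sum_sum_type, LZ]

lemma LZ_vtx (w w' : W m N) : LZ A 1 (vtx A w) w' = if w' = w then 2 else 0 := by
  rcases w with _ | a | b
  · rcases w' with _ | a' | b' <;> simp [LZ, vtx]
  · rcases w' with _ | a' | b'
    · simp only [LZ, vtx, Fin.append_left, Fin.append_right, Pi.single_apply]
      simp [mul_comm]
    · simp [LZ, vtx, Pi.single_apply]
    · simp [LZ, vtx, Pi.single_apply]
      ring
  · rcases w' with _ | a' | b' 
    · simp [LZ, vtx, Pi.single_apply]
    · simp [LZ, vtx]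
    · simp [LZ, vtx, Pi.single_apply]

/-- reconstruct -/
lemma recon (t : ℝ) (y : Fin (m + N) → ℝ) :
    ∑ w, LR A t y w • toReal (vtx A w) = (2 : ℝ) • y := by
  ext i
  refine Fin.addCases (fun a => ?_) (fun b => ?_) i
  · simp [Fintype.sum_option, Fintype.sum_sum_type, LR, vtx, toReal, Pi.single_apply]
    ring
  · simp only [LR, vtx, toReal, Fintype.sum_option, Fintype.sum_sum_type, Pi.add_apply,
      Finset.sum_apply, Pi.smul_apply, Fin.append_right, Pi.single_apply, smul_eq_mul,
      Pi.zero_apply, Int.cast_zero, mul_zero, zero_add, Int.cast_neg, Int.cast_natCast]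
    simp only [Int.cast_ite, Int.cast_one, Int.cast_zero, mul_ite, mul_one, mul_zero,
      Finset.sum_ite_eq, Finset.mem_univ, if_true]
    have : ∑ c, y (Fin.castAdd N c) * -((A c b).val : ℝ)
        = - ∑ c, ((A c b).val : ℝ) * y (Fin.castAdd N c) := by
      rw [← Finset.sum_neg_distrib]
      exact Finset.sum_congr rfl fun c _ => by ring
    rw [this]
    ring

lemma simp'_subset : simp' A ⊆ {p | ∀ w, 0 ≤ LR A 1 p w} := by
  refine convexHull_min ?_ ?_
  · rintro _ ⟨w, rfl⟩ w'
    have := LR_toReal A 1 (vtx A w) w'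
    rw [Int.cast_one] at this
    rw [this, LZ_vtx]
    split_ifs <;> norm_num
  · intro p hp q hq a b ha hb hab w
    have h : LR A 1 (a • p + b • q) w = a * LR A 1 p w + b * LR A 1 q w := by
      have h1 := LR_add A (a * 1) (b * 1) (a • p) (b • q) w
      rw [LR_smul, LR_smul] at h1
      rw [← h1]
      congr 1
      linarith
    rw [h]
    exact add_nonneg (mul_nonneg ha (hp w)) (mul_nonneg hb (hq w))

lemma mem_smul_simp' (t : ℕ) (y : Fin (m + N) → ℝ) :
    y ∈ (t : ℝ) • simp' A ↔ ∀ w, 0 ≤ LR A t y w := by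
  constructor
  · rintro ⟨p, hp, rfl⟩ w
    have := simp'_subset A hp w
    have h := LR_smul A (t : ℝ) 1 p w
    rw [mul_one] at h
    change 0 ≤ LR A (t : ℝ) ((t : ℝ) • p) w
    rw [h]
    exact mul_nonneg (Nat.cast_nonneg t) this
  · intro h
    rcases Nat.eq_zero_or_pos t with rfl | ht
    · have hs := LR_sum A ((0 : ℕ) : ℝ) y
      have h0 : ∀ w, LR A ((0 : ℕ) : ℝ) y w = 0 := by
        intro w
        rw [Nat.cast_zero, mul_zero] at hs
        have := (Finset.sum_eq_zero_iff_of_nonneg (fun w _ => by simpa using h w)).1 hs w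
          (Finset.mem_univ w)
        simpa using this
      have hr := recon A ((0 : ℕ) : ℝ) y
      have hy : y = 0 := by
        have : (2 : ℝ) • y = 0 := by
          rw [← hr]
          exact Finset.sum_eq_zero fun w _ => by rw [h0 w, zero_smul]
        exact (smul_eq_zero.1 this).resolve_left (by norm_num)
      refine ⟨toReal (vtx A none), subset_convexHull ℝ _ ⟨none, rfl⟩, ?_⟩
      simp [hy]
    · have ht' : (0 : ℝ) < t := Nat.cast_pos.2 ht
      refine ⟨(t : ℝ)⁻¹ • y, ?_, ?_⟩
      · refine mem_convexHull_of_exists_fintype (fun w => LR A t y w / (2 * t))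
          (fun w => toReal (vtx A w)) ?_ ?_ ?_ ?_
        · intro w; exact div_nonneg (h w) (by positivity)
        · rw [← Finset.sum_div, LR_sum, div_self (by positivity)]
        · intro w; exact ⟨w, rfl⟩
        · have : ∀ w, (LR A t y w / (2 * t)) • toReal (vtx A w)
              = (2 * (t : ℝ))⁻¹ • (LR A t y w • toReal (vtx A w)) := by
            intro w
            rw [smul_smul, div_eq_inv_mul]
          simp_rw [this]
          rw [← Finset.smul_sum, recon, smul_smul]
          congr 1
          field_simp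
      · change (t : ℝ) • ((t : ℝ)⁻¹ • y) = y
        rw [smul_smul, mul_inv_cancel₀ ht'.ne', one_smul]

lemma affineSpan_simp' : affineSpan ℝ (simp' A) = ⊤ := by
  rw [simp', affineSpan_convexHull, eq_top_iff]
  intro y _
  have h1 : ∑ w, (LR A 1 y w / 2) = 1 := by
    rw [← Finset.sum_div, LR_sum]; norm_num
  have h2 : (Finset.univ : Finset (W m N)).affineCombination ℝ (fun w => toReal (vtx A w))
      (fun w => LR A 1 y w / 2) = y := by
    rw [Finset.affineCombination_eq_linear_combination _ _ _ h1]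
    have : ∀ w, (LR A 1 y w / 2) • toReal (vtx A w)
        = (2 : ℝ)⁻¹ • (LR A 1 y w • toReal (vtx A w)) := by
      intro w; rw [smul_smul, div_eq_inv_mul]
    simp_rw [this]
    rw [← Finset.smul_sum, recon, smul_smul]
    norm_num
  rw [← h2]
  exact affineCombination_mem_affineSpan h1 _

lemma isLatticePolytope_simp' : IsLatticePolytope (simp' A) := by
  classical
  refine ⟨Finset.univ.image (vtx A), ⟨vtx A none, by simp⟩, ?_⟩
  rw [simp']
  congr 1
  ext x
  simp

end Pool.Agent.H51.Cayley
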